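import Mathlib

set_option autoImplicit false

namespace Pool.Agent.Results.MP_cb2a9f_co.SmallerAdmissible

open Set

variable {α : Type}

/-- `(W, 𝓘)` is a pre-independence space. -/
def IsPre (W : Set α) (𝓘 : Set (Set α)) : Prop :=
  (∀ Y ∈ 𝓘, Y ⊆ W) ∧ ∅ ∈ 𝓘 ∧ (∀ Y ∈ 𝓘, ∀ Y' : Set α, Y' ⊆ Y → Y' ∈ 𝓘) ∧
    ∀ I₁ ∈ 𝓘, ∀ I₂ ∈ 𝓘, I₁.Finite → I₂.Finite → I₁.ncard < I₂.ncard →
      ∃ e ∈ I₂ \ I₁, insert e I₁ ∈ 𝓘

/-- `(W, 𝓘)` is an independence space. -/
def IsIndSpace (W : Set α) (𝓘 : Set (Set α)) : Prop :=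
  IsPre W 𝓘 ∧ ∀ Y : Set α, Y ⊆ W → (∀ F : Set α, F ⊆ Y → F.Finite → F ∈ 𝓘) → Y ∈ 𝓘

/-- `B` is a basis (maximal member) of `𝓘`. -/
def IsBasisOf (𝓘 : Set (Set α)) (B : Set α) : Prop := Maximal (fun Y => Y ∈ 𝓘) B

/-- The restriction `𝓘 | Z`. -/
def restr (𝓘 : Set (Set α)) (Z : Set α) : Set (Set α) := {Y | Y ⊆ Z ∧ Y ∈ 𝓘}

/-- The contraction `𝓘 . Z` computed with the basis `B` of `𝓘 | (W \ Z)`. -/
def contr (𝓘 : Set (Set α)) (Z B : Set α) : Set (Set α) := {Y | Y ⊆ Z ∧ Y ∪ B ∈ 𝓘}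

/-- The dual `𝓘*` on the ground set `W`. -/
def dual (W : Set α) (𝓘 : Set (Set α)) : Set (Set α) :=
  {X | X ⊆ W ∧ ∃ B, IsBasisOf 𝓘 B ∧ B ⊆ W \ X}

/-- `(W, 𝓘)` is a B-matroid. -/
def IsBMatroid (W : Set α) (𝓘 : Set (Set α)) : Prop :=
  (∀ Y ∈ 𝓘, Y ⊆ W) ∧ ∅ ∈ 𝓘 ∧ (∀ Y ∈ 𝓘, ∀ Y' : Set α, Y' ⊆ Y → Y' ∈ 𝓘) ∧
    ∀ X : Set α, X ⊆ W →
      (∀ T ∈ 𝓘, T ⊆ X → ∃ B, IsBasisOf (restr 𝓘 X) B ∧ T ⊆ B) ∧
      (∀ B₁ B₂ : Set α, IsBasisOf (restr 𝓘 X) B₁ → IsBasisOf (restr 𝓘 X) B₂ →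
        ∀ x ∈ B₁ \ B₂, ∃ y ∈ B₂ \ B₁, IsBasisOf (restr 𝓘 X) (insert y (B₁ \ {x})))

/-- An admissible system on the ground type `α`. -/
def IsAdmissible (𝒟 : Set α → Set (Set (Set α))) : Prop :=
  (∀ W, ∀ 𝓘 ∈ 𝒟 W, IsPre W 𝓘) ∧
  (∀ W Z : Set α, Z ⊆ W → ∀ 𝓘 ∈ 𝒟 W,
    restr 𝓘 Z ∈ 𝒟 Z ∧ (∃ B, IsBasisOf (restr 𝓘 (W \ Z)) B) ∧
    (∀ B B', IsBasisOf (restr 𝓘 (W \ Z)) B → IsBasisOf (restr 𝓘 (W \ Z)) B' →
      contr 𝓘 Z B = contr 𝓘 Z B') ∧
    (∀ B, IsBasisOf (restr 𝓘 (W \ Z)) B → contr 𝓘 Z B ∈ 𝒟 Z)) ∧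
  (∀ W, ∀ 𝓘 ∈ 𝒟 W, dual W 𝓘 ∈ 𝒟 W ∧ dual W (dual W 𝓘) = 𝓘)

open Matroid

lemma basis_restr (M : Matroid α) (X B : Set α) :
    IsBasisOf (restr {Y | M.Indep Y} X) B ↔ M.IsBasis' B X := by
  unfold IsBasisOf restr Matroid.IsBasis'
  simp only [mem_setOf_eq, and_comm]

lemma dual_eq (M : Matroid α) : dual M.E {Y | M.Indep Y} = {Y | M✶.Indep Y} := by
  ext X
  simp only [dual, IsBasisOf, mem_setOf_eq, dual_indep_iff_exists']
  refine and_congr_right fun _ => exists_congr fun B => ?_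
  rw [← isBase_iff_maximal_indep]
  refine and_congr_right fun hB => ?_
  rw [subset_diff, and_iff_right hB.subset_ground, disjoint_comm]

lemma contr_eq (M : Matroid α) (Z B : Set α) (_hZ : Z ⊆ M.E) (hB : M.IsBasis' B (M.E \ Z)) :
    contr {Y | M.Indep Y} Z B = {Y | (M ／ (M.E \ Z)).Indep Y} := by
  ext Y
  simp only [contr, mem_setOf_eq, hB.contract_indep_iff]
  constructor
  · rintro ⟨h1, h2⟩
    exact ⟨h2, disjoint_left.2 fun x hx hxY => hx.2 (h1 hxY)⟩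
  · rintro ⟨h1, h2⟩
    refine ⟨fun x hx => ?_, h1⟩
    by_contra hxZ
    exact disjoint_left.1 h2 ⟨h1.subset_ground (Or.inl hx), hxZ⟩ hx

lemma isPre (M : Matroid α) : IsPre M.E {Y | M.Indep Y} := by
  refine ⟨fun Y hY => Indep.subset_ground hY, M.empty_indep, fun Y hY Y' h => Indep.subset hY h, ?_⟩
  intro I₁ h₁ I₂ h₂ f₁ f₂ hlt
  have : I₁.encard < I₂.encard := by
    rw [← f₁.cast_ncard_eq, ← f₂.cast_ncard_eq]
    exact_mod_cast hlt
  exact Indep.augment h₁ h₂ this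

lemma isBMatroid (M : Matroid α) : IsBMatroid M.E {Y | M.Indep Y} := by
  refine ⟨fun Y hY => Indep.subset_ground hY, M.empty_indep, fun Y hY Y' h => Indep.subset hY h, ?_⟩
  intro X hX
  constructor
  · intro T hT hTX
    obtain ⟨B, hB, hTB⟩ := Indep.subset_isBasis'_of_subset hT hTX
    exact ⟨B, (basis_restr M X B).2 hB, hTB⟩
  · intro B₁ B₂ h₁ h₂ x hx
    rw [basis_restr, ← isBase_restrict_iff'] at h₁ h₂
    obtain ⟨y, hy, hB⟩ := h₁.exchange h₂ hx
    exact ⟨y, hy, (basis_restr M X _).2 (isBase_restrict_iff'.1 hB)⟩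

def sys (W : Set α) : Set (Set (Set α)) :=
  {𝓘 | ∃ M : Matroid α, M.E = W ∧ 𝓘 = {Y | M.Indep Y} ∧ (M.Finitary ∨ M✶.Finitary)}

lemma sys_admissible : IsAdmissible (sys (α := α)) := by
  refine ⟨?_, ?_, ?_⟩
  · rintro W 𝓘 ⟨M, rfl, rfl, -⟩
    exact isPre M
  · rintro W Z hZ 𝓘 ⟨M, rfl, rfl, hM⟩
    refine ⟨⟨M ↾ Z, rfl, ?_, ?_⟩, ?_, ?_, ?_⟩
    · ext Y
      simp only [restr, mem_setOf_eq, restrict_indep_iff, and_comm]
    · rcases hM with hM | hM
      · left; infer_instance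
      · right
        rw [← delete_compl hZ, dual_delete]
        infer_instance
    · obtain ⟨B, hB⟩ := M.exists_isBasis' (M.E \ Z)
      exact ⟨B, (basis_restr M _ B).2 hB⟩
    · intro B B' hB hB'
      rw [basis_restr] at hB hB'
      rw [contr_eq M Z B hZ hB, contr_eq M Z B' hZ hB']
    · intro B hB
      rw [basis_restr] at hB
      refine ⟨M ／ (M.E \ Z), ?_, contr_eq M Z B hZ hB, ?_⟩
      · rw [contract_ground, diff_diff_cancel_left hZ]
      · rcases hM with hM | hM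
        · left; infer_instance
        · right
          rw [dual_contract]
          infer_instance
  · rintro W 𝓘 ⟨M, rfl, rfl, hM⟩
    refine ⟨⟨M✶, rfl, dual_eq M, ?_⟩, ?_⟩
    · rw [dual_dual]
      exact hM.symm
    · rw [dual_eq M]
      have := dual_eq M✶
      rw [dual_dual] at this
      exact this

lemma indSpace_mem (W : Set α) (𝓘 : Set (Set α)) (h : IsIndSpace W 𝓘) : 𝓘 ∈ sys W := by
  obtain ⟨⟨h1, h2, h3, h4⟩, h5⟩ := h
  refine ⟨(IndepMatroid.ofFinitaryCardAugment W (fun Y => Y ∈ 𝓘) h2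
    (fun I J hJ hIJ => h3 J hJ I hIJ)
    (fun I J hI hIf hJ hJf hlt => by
      obtain ⟨e, he, he'⟩ := h4 I hI J hJ hIf hJf hlt
      exact ⟨e, he.1, he.2, he'⟩)
    (fun I hI => h5 I (fun x hx => h1 {x} (hI {x} (singleton_subset_iff.2 hx) (finite_singleton x))
      rfl) hI)
    h1).matroid, rfl, ?_, Or.inl inferInstance⟩
  ext Y
  simp

/-- the rank one uniform matroid on `X` -/
def U (X : Set α) : Matroid α := (freeOn (univ : Set Unit)).comapOn X (fun _ => ())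

lemma U_indep {X Y : Set α} : (U X).Indep Y ↔ Y.Subsingleton ∧ Y ⊆ X := by
  simp only [U, comapOn_indep_iff, freeOn_indep_iff, subset_univ, true_and]
  refine and_congr_left fun _ => ?_
  constructor
  · intro h x hx y hy
    exact h hx hy rfl
  · intro h x hx y hy _
    exact h hx hy

lemma U_isBase {X : Set α} {x : α} (hx : x ∈ X) : (U X).IsBase {x} := by
  rw [isBase_iff_maximal_indep]
  refine ⟨U_indep.2 ⟨subsingleton_singleton, singleton_subset_iff.2 hx⟩, ?_⟩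
  intro Y hY hxY y hy
  exact (U_indep.1 hY).1 hy (hxY rfl)

lemma U_base_meets {X B : Set α} (hX : X.Nonempty) (hB : (U X).IsBase B) : ¬ Disjoint X B := by
  intro hd
  obtain ⟨x, hx⟩ := hX
  have hBe : B = ∅ := by
    have := hB.subset_ground
    exact eq_empty_of_subset_empty fun y hy => disjoint_left.1 hd (this hy) hy
  have := hB.eq_of_subset_indep (U_isBase hx).indep (by rw [hBe]; exact empty_subset _)
  rw [hBe] at this
  exact (singleton_nonempty x).ne_empty this.symm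

theorem result (α : Type) [Infinite α] :
    ∃ 𝒟 : Set α → Set (Set (Set α)), IsAdmissible 𝒟 ∧
      (∀ (W : Set α) (𝓘 : Set (Set α)), IsIndSpace W 𝓘 → 𝓘 ∈ 𝒟 W) ∧
      ∃ (W : Set α) (𝓘 : Set (Set α)), IsBMatroid W 𝓘 ∧ 𝓘 ∉ 𝒟 W := by
  refine ⟨sys, sys_admissible, indSpace_mem, ?_⟩
  let e := Infinite.natEmbedding α
  set A : Set α := range (fun n => e (2 * n)) with hA
  set C : Set α := range (fun n => e (2 * n + 1)) with hC
  have hAinf : A.Infinite := infinite_range_of_injective (fun a b h => by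
    have := e.injective h; omega)
  have hCinf : C.Infinite := infinite_range_of_injective (fun a b h => by
    have := e.injective h; omega)
  have hdis : Disjoint A C := by
    rw [disjoint_left]
    rintro _ ⟨a, rfl⟩ ⟨b, h⟩
    have := e.injective h
    omega
  let M : Matroid α := (U A)✶.disjointSum (U C) hdis
  refine ⟨M.E, {Y | M.Indep Y}, isBMatroid M, ?_⟩
  rintro ⟨N, hE, hI, hN⟩
  have hNM : N = M := ext_indep hE (fun I _ => (Set.ext_iff.1 hI I).symm)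
  subst hNM
  have hEA : (U A)✶.E = A := rfl
  have hEC : (U C).E = C := rfl
  have hMi : ∀ I, M.Indep I ↔ (U A)✶.Indep (I ∩ A) ∧ (U C).Indep (I ∩ C) ∧ I ⊆ A ∪ C :=
    fun I => disjointSum_indep_iff
  have hMb : ∀ I, M.IsBase I ↔ (U A)✶.IsBase (I ∩ A) ∧ (U C).IsBase (I ∩ C) ∧ I ⊆ A ∪ C :=
    fun I => disjointSum_isBase_iff
  rcases hN with hN | hN
  · have hAi : M.Indep A := by
      refine indep_of_forall_finite_subset_indep A ?_
      intro F hFA hF
      rw [hMi]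
      refine ⟨?_, ?_, hFA.trans subset_union_left⟩
      · obtain ⟨a, ha, haF⟩ := hAinf.exists_notMem_finite hF
        refine dual_indep_iff_exists'.2 ⟨inter_subset_right, {a}, U_isBase ha, ?_⟩
        exact disjoint_singleton_right.2 fun h => haF h.1
      · have : F ∩ C = ∅ := (hdis.mono_left hFA).inter_eq
        rw [this]
        exact empty_indep _
    rw [hMi, inter_self] at hAi
    obtain ⟨-, B, hB, hd⟩ := dual_indep_iff_exists'.1 hAi.1
    exact U_base_meets hAinf.nonempty hB hd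
  · have hME : M.E = A ∪ C := disjointSum_ground_eq
    have hCi : M✶.Indep C := by
      refine indep_of_forall_finite_subset_indep C ?_
      intro F hFC hF
      obtain ⟨c, hc, hcF⟩ := hCinf.exists_notMem_finite hF
      obtain ⟨B, hB⟩ := (U A)✶.exists_isBase
      have hBA : B ⊆ A := hB.subset_ground
      refine dual_indep_iff_exists'.2 ⟨hME ▸ hFC.trans subset_union_right, B ∪ {c}, ?_, ?_⟩
      · rw [hMb]
        refine ⟨?_, ?_, union_subset_union hBA (singleton_subset_iff.2 hc)⟩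
        · have : (B ∪ {c}) ∩ A = B := by
            ext x
            constructor
            · rintro ⟨h | h, hx⟩
              · exact h
              · exact absurd (h ▸ hc) (disjoint_left.1 hdis hx)
            · exact fun h => ⟨Or.inl h, hBA h⟩
          rwa [this]
        · have : (B ∪ {c}) ∩ C = {c} := by
            ext x
            constructor
            · rintro ⟨h | h, hx⟩
              · exact absurd hx (disjoint_left.1 hdis (hBA h))
              · exact h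
            · rintro rfl
              exact ⟨Or.inr rfl, hc⟩
          rw [this]
          exact U_isBase hc
      · rw [disjoint_union_right]
        exact ⟨(hdis.symm.mono hFC hBA), disjoint_singleton_right.2 hcF⟩
    obtain ⟨-, B, hB, hd⟩ := dual_indep_iff_exists'.1 hCi
    rw [hMb] at hB
    exact U_base_meets hCinf.nonempty hB.2.1 (hd.mono_right inter_subset_left)

end Pool.Agent.Results.MP_cb2a9f_co.SmallerAdmissible
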